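import Pool.Agent.H31.TSp

open Pool.Agent.H31.TSp

universe u v w

theorem Pool.Agent.Results.MP_723ccc_gt.Main.result
    {X : Type u} {V : Type v} [TopologicalSpace X] [TopologicalSpace.MetrizableSpace X]
    [AddCommGroup V] [Module ℝ V] [TopologicalSpace V] [IsTopologicalAddGroup V]
    [ContinuousSMul ℝ V] (i : X → V) (hi : IsFreeTVS.{u, v, w} i)
    (hct : CountablyTight (sp i 2)) :
    CountablyTight (sp i 4) ∧ TopologicalSpace.SeparableSpace X ∧
      ∀ n, CountablyTight (sp i n) :=
  main i hi hct
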